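import Pool.Agent.Helper93.EP.Final
import Pool.Agent.Helper93.EP.ThrConj

set_option autoImplicit false

/-!
# MP_8604ae_co: the extreme points of the convex hull of the Laplacian spectra

For every `n ≥ 1` the extreme points of `P_n = conv {λ(G) : G a graph on n vertices}` are exactly
the Laplacian spectra of the threshold graphs, that is, the conjugate degree sequences of the
threshold graphs; moreover `λ(G)` is an extreme point of `P_n` if and only if `G` is a threshold
graph.
-/

namespace Pool.Agent.Results.MP_8604ae_co.ExtremePoints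

open scoped BigOperators

/-- `λ(G) ∈ ℝⁿ`: the eigenvalues of the Laplacian `L(G) = D - A` of the graph `G` with vertex set
`Fin n`, listed with multiplicity in nonincreasing order (Mathlib's `eigenvalues₀` lists the
eigenvalues of a Hermitian matrix in decreasing order; coordinate `k : Fin n` is
`λ_{k+1}`). -/
noncomputable def lam {n : ℕ} (G : SimpleGraph (Fin n)) : Fin n → ℝ := by
  classical
  exact fun k => (G.isHermitian_lapMatrix ℝ).eigenvalues₀ (Fin.cast (Fintype.card_fin n).symm k)

/-- `P_n`: the convex hull of the vectors `λ(G)`, `G` a graph with vertex set `Fin n`. -/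
noncomputable def P (n : ℕ) : Set (Fin n → ℝ) :=
  convexHull ℝ (Set.range (lam (n := n)))

/-- Threshold graphs: the vertices can be ordered `σ 0, σ 1, …` such that every `σ j` is adjacent
to all earlier vertices (`b j`) or to none of them (`¬ b j`), i.e. the graph is built from a
single vertex by repeatedly adding an isolated vertex or a vertex adjacent to all earlier ones. -/
def IsThreshold {n : ℕ} (G : SimpleGraph (Fin n)) : Prop :=
  ∃ (σ : Equiv.Perm (Fin n)) (b : Fin n → Prop),
    ∀ i j : Fin n, i < j → (G.Adj (σ i) (σ j) ↔ b j)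

/-- `d*`: the conjugate of the degree sequence, `d*_{k+1} = #{v : deg v ≥ k + 1}` in coordinate
`k : Fin n`. -/
noncomputable def conjDeg {n : ℕ} (G : SimpleGraph (Fin n)) : Fin n → ℝ := by
  classical
  exact fun k => ((Finset.univ.filter (fun v : Fin n => (k : ℕ) + 1 ≤ G.degree v)).card : ℝ)

/-- **The extreme points of the convex hull of the Laplacian spectra.** For every `n ≥ 1`:
(1) `λ(G)` is an extreme point of `P_n` if and only if `G` is a threshold graph;
(2) the set of extreme points of `P_n` is the set of the vectors `λ(G)`, `G` threshold;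
(3) it is the set of conjugate degree sequences of threshold graphs, and `λ(G) = d*(G)` for every
threshold graph `G`. -/
theorem result (n : ℕ) (hn : 1 ≤ n) :
    (∀ G : SimpleGraph (Fin n), lam G ∈ (P n).extremePoints ℝ ↔ IsThreshold G) ∧
    (P n).extremePoints ℝ = {x | ∃ G : SimpleGraph (Fin n), IsThreshold G ∧ x = lam G} ∧
    (P n).extremePoints ℝ = {x | ∃ G : SimpleGraph (Fin n), IsThreshold G ∧ x = conjDeg G} ∧
    (∀ G : SimpleGraph (Fin n), IsThreshold G → lam G = conjDeg G) := by
  obtain ⟨h1, h2⟩ := Pool.Agent.Helper93.EP.main n hn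
  have hconj : ∀ G : SimpleGraph (Fin n), IsThreshold G → lam G = conjDeg G := by
    classical
    intro G hG
    funext k
    have := Pool.Agent.Helper93.EP.thr_conj G hG k
    refine Eq.trans this ?_
    unfold conjDeg
    congr 1
    refine congrArg Finset.card (Finset.filter_congr fun v _ => ?_)
    rw [← SimpleGraph.card_neighborFinset_eq_degree, SimpleGraph.neighborFinset_eq_filter]
    rw [Nat.succ_le_iff]
  have hA : (P n).extremePoints ℝ = {x | ∃ G : SimpleGraph (Fin n), IsThreshold G ∧ x = lam G} := by
    ext x
    constructor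
    · intro hx
      have hx' : x ∈ {x | ∃ G : SimpleGraph (Fin n),
        Pool.Agent.Helper93.EP.IsThreshold G ∧ Pool.Agent.Helper93.EP.lam G = x} := h1 ▸ hx
      obtain ⟨G, hG, he⟩ := hx'
      exact ⟨G, hG, he.symm⟩
    · rintro ⟨G, hG, rfl⟩
      exact (h2 G).2 hG
  refine ⟨fun G => h2 G, hA, ?_, hconj⟩
  rw [hA]
  ext x
  constructor
  · rintro ⟨G, hG, rfl⟩
    exact ⟨G, hG, hconj G hG⟩
  · rintro ⟨G, hG, rfl⟩
    exact ⟨G, hG, (hconj G hG).symm⟩

end Pool.Agent.Results.MP_8604ae_co.ExtremePoints
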